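import Mathlib
import Pool.Agent.H91.Toeplitz

/-!
# A weakly hypercyclic coanalytic Toeplitz operator on `H^4` with `g(𝔻) ∩ 𝔻 = ∅`

Question Q1 of MP_0d9948_an asks for `g ∈ H^∞(𝔻)` with `g(𝔻) ∩ 𝔻 = ∅` and an exponent `p > 2`
such that `T_g^*` is weakly hypercyclic on `H^p(𝔻)`.  The answer is yes, with `p = 4` and
`g(z) = exp(1/2 + (i/π) log((1+z)/(1-z)))`.
-/

open Metric Pool.Agent.H91
open scoped ENNReal

namespace Pool.Agent.Results.MP_0d9948_an.CoanalyticToeplitzH4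

/-- There are `g ∈ H^∞(𝔻)` with `g(𝔻) ∩ 𝔻 = ∅` and an exponent `2 < p < ∞` (namely `p = 4`)
such that `T_g^*` is a weakly hypercyclic operator on `H^p`. -/
theorem result :
    ∃ g : ℂ → ℂ, IsHInfty g ∧ (∀ z ∈ ball (0 : ℂ) 1, g z ∉ ball (0 : ℂ) 1) ∧
      ∃ (p : ℝ≥0∞) (_ : Fact (1 ≤ p)), 2 < p ∧ p < ∞ ∧
        ∃ T : Hp p →L[ℂ] Hp p, IsCoanalyticToeplitz g p T ∧ IsWeaklyHypercyclic T := by
  refine ⟨gfun, ⟨differentiableOn_gfun, Real.exp 1, fun z hz => (norm_gfun_lt hz).le⟩,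
    fun z hz h => ?_, 4, inferInstance, by norm_num, by norm_num, Tg4,
    isCoanalyticToeplitz_Tg4, isWeaklyHypercyclic_Tg4⟩
  rw [mem_ball_zero_iff] at h
  exact lt_asymm h (one_lt_norm_gfun hz)

end Pool.Agent.Results.MP_0d9948_an.CoanalyticToeplitzH4
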